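import Pool.Agent.PFE.StmtsE2b

/-!
# Squad PFE, row BLS: base change of the local algebra
-/

set_option autoImplicit false

open scoped BigOperators TensorProduct

noncomputable section

namespace Pool.Agent.PFE.H92

section basics

variable {R K A S X : Type} [CommRing R] [Field K] [Algebra R K] [Ring A] [Algebra R A]
  [Ring S] [Algebra R S] [Group X]

/-- the inclusion of `K ⊗ N` -/
def bi (K : Type) [Field K] [Algebra R K] (N : Submodule R A) : K ⊗[R] N →ₗ[K] K ⊗[R] A :=
  N.subtype.baseChange K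

theorem bi_tmul (N : Submodule R A) (k : K) (n : N) : bi K N (k ⊗ₜ[R] n) = k ⊗ₜ[R] (n : A) := rfl

theorem bi_inj [Module.Flat R K] (N : Submodule R A) : Function.Injective (bi K N) :=
  Module.Flat.lTensor_preserves_injective_linearMap (M := K) N.subtype N.injective_subtype

theorem smul_alg (c : R) (k : K) (a : A) :
    algebraMap R K c • (k ⊗ₜ[R] a) = k ⊗ₜ[R] (c • a) := by
  rw [TensorProduct.smul_tmul', smul_eq_mul, ← Algebra.smul_def, TensorProduct.smul_tmul]

/-- the commutator with `y`, twisted by `c` -/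
def del (y : A) (c : R) : A →ₗ[R] A := LinearMap.mulLeft R y - c • LinearMap.mulRight R y

theorem del_apply (y : A) (c : R) (a : A) : del y c a = y * a - c • (a * y) := rfl

theorem mem_nx {y : A} {χ : X →* R} {x : X} {a : A} : a ∈ Nx y χ x ↔ del y (χ x) a = 0 := by
  rw [del_apply, sub_eq_zero]
  exact Iff.rfl

theorem del_lt (y : A) (c : R) (a : K ⊗[R] A) : (del y c).lTensor K a =
    (1 : K) ⊗ₜ[R] y * a - algebraMap R K c • (a * (1 : K) ⊗ₜ[R] y) := by
  induction a using TensorProduct.induction_on with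
  | zero => rw [map_zero, mul_zero, zero_mul, smul_zero, sub_zero]
  | tmul k a =>
    rw [LinearMap.lTensor_tmul, del_apply, Algebra.TensorProduct.tmul_mul_tmul, one_mul,
      Algebra.TensorProduct.tmul_mul_tmul, mul_one, smul_alg, TensorProduct.tmul_sub]
  | add a b ha hb =>
    rw [map_add, ha, hb, mul_add, add_mul, smul_add]
    abel

theorem mem_nx' {y : A} {χ : X →* R} {χK : X →* K} (hχ : ∀ x, χK x = algebraMap R K (χ x))
    {x : X} {a : K ⊗[R] A} :
    a ∈ Nx ((1 : K) ⊗ₜ[R] y) χK x ↔ (del y (χ x)).lTensor K a = 0 := by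
  rw [del_lt, ← hχ, sub_eq_zero]
  exact Iff.rfl

theorem ex_nx (y : A) (χ : X →* R) (x : X) :
    Function.Exact (Nx y χ x).subtype (del y (χ x)) := by
  intro a
  rw [← mem_nx]
  exact ⟨fun h => ⟨⟨a, h⟩, rfl⟩, fun ⟨b, hb⟩ => hb ▸ b.2⟩

variable [Module.Flat R K]

theorem nx_bi {y : A} {χ : X →* R} {χK : X →* K} (hχ : ∀ x, χK x = algebraMap R K (χ x))
    {x : X} (a : K ⊗[R] A) :
    a ∈ Nx ((1 : K) ⊗ₜ[R] y) χK x ↔ ∃ t, bi K (Nx y χ x) t = a := by
  rw [mem_nx' hχ]
  exact Module.Flat.lTensor_exact K (ex_nx y χ x) a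

theorem bi_mem {y : A} {χ : X →* R} {χK : X →* K} (hχ : ∀ x, χK x = algebraMap R K (χ x))
    {x : X} (t : K ⊗[R] Nx y χ x) : bi K (Nx y χ x) t ∈ Nx ((1 : K) ⊗ₜ[R] y) χK x :=
  (nx_bi hχ _).mpr ⟨t, rfl⟩

theorem ex_p {y : A} {χ : X →* R} {χK : X →* K} (hχ : ∀ x, χK x = algebraMap R K (χ x))
    (x : X) (p : Nx y χ x →ₗ[R] S) :
    ∃ p' : Nx ((1 : K) ⊗ₜ[R] y) χK x →ₗ[K] K ⊗[R] S,
      ∀ t, p' ⟨bi K (Nx y χ x) t, bi_mem hχ t⟩ = p.baseChange K t := by
  let e : K ⊗[R] Nx y χ x ≃ₗ[K] Nx ((1 : K) ⊗ₜ[R] y) χK x :=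
    LinearEquiv.ofBijective ((bi K (Nx y χ x)).codRestrict _ (bi_mem hχ))
      ⟨fun a b h => bi_inj _ (congrArg Subtype.val h), fun a => by
        obtain ⟨t, ht⟩ := (nx_bi hχ a.1).mp a.2
        exact ⟨t, Subtype.ext ht⟩⟩
  refine ⟨p.baseChange K ∘ₗ e.symm.toLinearMap, fun t => ?_⟩
  have h1 : (⟨bi K (Nx y χ x) t, bi_mem hχ t⟩ : Nx ((1 : K) ⊗ₜ[R] y) χK x) = e t := rfl
  rw [h1, LinearMap.comp_apply]
  exact congrArg _ (e.symm_apply_apply t)

omit [Module.Flat R K] in
theorem tx_add (y : A) (l : ℕ) (c : R) (a b : A) :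
    Tx y l c (a + b) = Tx y l c a + Tx y l c b := by
  unfold Tx
  rw [← Finset.sum_add_distrib]
  refine Finset.sum_congr rfl fun j _ => ?_
  rw [mul_add, add_mul, smul_add]

omit [Module.Flat R K] in
theorem tx_zero (y : A) (l : ℕ) (c : R) : Tx y l c 0 = 0 := by
  unfold Tx
  refine Finset.sum_eq_zero fun j _ => ?_
  rw [mul_zero, zero_mul, smul_zero]

omit [Module.Flat R K] in
theorem tx_tmul (y : A) (l : ℕ) (c : R) (k : K) (a : A) :
    Tx ((1 : K) ⊗ₜ[R] y) l (algebraMap R K c) (k ⊗ₜ[R] a) = k ⊗ₜ[R] Tx y l c a := by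
  unfold Tx
  rw [TensorProduct.tmul_sum]
  refine Finset.sum_congr rfl fun j _ => ?_
  rw [Algebra.TensorProduct.tmul_pow, Algebra.TensorProduct.tmul_pow, one_pow, one_pow,
    Algebra.TensorProduct.tmul_mul_tmul, Algebra.TensorProduct.tmul_mul_tmul, one_mul, mul_one,
    ← map_pow, smul_alg]

/-- the ideal of the base change -/
theorem jx_range {y : A} {l : ℕ} {χ : X →* R} {χK : X →* K}
    (hχ : ∀ x, χK x = algebraMap R K (χ x)) (x : X) (a : K ⊗[R] A) :
    a ∈ Jx ((1 : K) ⊗ₜ[R] y) l χK x ↔ ∃ t, bi K (Jx y l χ x) t = a := by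
  constructor
  · intro h
    change a ∈ LinearMap.range (bi K (Jx y l χ x))
    have hle : Jx ((1 : K) ⊗ₜ[R] y) l χK x ≤ LinearMap.range (bi K (Jx y l χ x)) := by
      unfold Jx
      rw [Submodule.span_le]
      rintro b (⟨a, rfl⟩ | ⟨n, hn, rfl⟩)
      · rw [hχ]
        change _ ∈ LinearMap.range (bi K (Jx y l χ x))
        induction a using TensorProduct.induction_on with
        | zero => rw [tx_zero]; exact Submodule.zero_mem _
        | tmul k a =>
          rw [tx_tmul]
          exact ⟨k ⊗ₜ[R] ⟨Tx y l (χ x) a, Submodule.subset_span (Or.inl ⟨a, rfl⟩)⟩, rfl⟩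
        | add a b ha hb => rw [tx_add]; exact Submodule.add_mem _ ha hb
      · obtain ⟨t, rfl⟩ := (nx_bi hχ n).mp hn
        change _ ∈ LinearMap.range (bi K (Jx y l χ x))
        clear hn
        induction t using TensorProduct.induction_on with
        | zero => rw [map_zero, mul_zero]; exact Submodule.zero_mem _
        | tmul k n =>
          rw [bi_tmul, Algebra.TensorProduct.tmul_mul_tmul, one_mul]
          exact ⟨k ⊗ₜ[R] ⟨y * n, Submodule.subset_span (Or.inr ⟨n, n.2, rfl⟩)⟩, rfl⟩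
        | add a b ha hb => rw [map_add, mul_add]; exact Submodule.add_mem _ ha hb
    exact hle h
  · rintro ⟨t, rfl⟩
    have key : ∀ (k : K) (b : A), b ∈ Jx y l χ x →
        k ⊗ₜ[R] b ∈ Jx ((1 : K) ⊗ₜ[R] y) l χK x := by
      intro k b hb
      unfold Jx at hb
      induction hb using Submodule.span_induction with
      | mem b hb =>
        rcases hb with ⟨a, rfl⟩ | ⟨n, hn, rfl⟩
        · rw [← tx_tmul, ← hχ]
          exact Submodule.subset_span (Or.inl ⟨_, rfl⟩)
        · refine Submodule.subset_span (Or.inr ⟨k ⊗ₜ[R] n, ?_, ?_⟩)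
          · exact bi_mem hχ (k ⊗ₜ[R] (⟨n, hn⟩ : Nx y χ x))
          · rw [Algebra.TensorProduct.tmul_mul_tmul, one_mul]
      | zero => rw [TensorProduct.tmul_zero]; exact Submodule.zero_mem _
      | add a b _ _ ha hb => rw [TensorProduct.tmul_add]; exact Submodule.add_mem _ ha hb
      | smul r a _ ha => rw [← smul_alg]; exact Submodule.smul_mem _ _ ha
    induction t using TensorProduct.induction_on with
    | zero => rw [map_zero]; exact Submodule.zero_mem _
    | tmul k n => exact key k n n.2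
    | add a b ha hb => rw [map_add]; exact Submodule.add_mem _ ha hb

omit [Module.Flat R K] in
theorem lt_zero_iff {M P Q : Type} [AddCommGroup M] [Module R M] [AddCommGroup P] [Module R P]
    [AddCommGroup Q] [Module R Q] [Module.Flat R K] (g : M →ₗ[R] P) (h : M →ₗ[R] Q)
    (hgh : ∀ m, g m = 0 ↔ h m = 0) (t : K ⊗[R] M) :
    g.lTensor K t = 0 ↔ h.lTensor K t = 0 := by
  have e1 : Function.Exact (LinearMap.ker g).subtype g := by
    intro a
    exact ⟨fun h => ⟨⟨a, h⟩, rfl⟩, fun ⟨b, hb⟩ => hb ▸ b.2⟩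
  have e2 : Function.Exact (LinearMap.ker g).subtype h := by
    intro a
    rw [← hgh]
    exact ⟨fun h => ⟨⟨a, h⟩, rfl⟩, fun ⟨b, hb⟩ => hb ▸ b.2⟩
  exact (Module.Flat.lTensor_exact K e1 t).trans (Module.Flat.lTensor_exact K e2 t).symm

/-- the kernel of the base change of `p` -/
theorem ker_bc {y : A} {l : ℕ} {χ : X →* R} {χK : X →* K}
    (hχ : ∀ x, χK x = algebraMap R K (χ x)) (x : X) (p : Nx y χ x →ₗ[R] S)
    (hp : ∀ a, p a = 0 ↔ (a : A) ∈ Jx y l χ x) (t : K ⊗[R] Nx y χ x) :
    p.baseChange K t = 0 ↔ bi K (Nx y χ x) t ∈ Jx ((1 : K) ⊗ₜ[R] y) l χK x := by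
  set J := Jx y l χ x with hJ
  have e3 : Function.Exact J.subtype J.mkQ := by
    intro a
    rw [Submodule.mkQ_apply, Submodule.Quotient.mk_eq_zero]
    exact ⟨fun h => ⟨⟨a, h⟩, rfl⟩, fun ⟨b, hb⟩ => hb ▸ b.2⟩
  have f3 := Module.Flat.lTensor_exact K e3 (bi K (Nx y χ x) t)
  have f1 := lt_zero_iff (K := K) p (J.mkQ ∘ₗ (Nx y χ x).subtype) (fun m => by
    rw [hp, LinearMap.comp_apply, Submodule.mkQ_apply, Submodule.Quotient.mk_eq_zero]
    rfl) t
  rw [jx_range hχ]
  have g1 : p.baseChange K t = 0 ↔ p.lTensor K t = 0 := Iff.rfl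
  have g2 : (J.mkQ ∘ₗ (Nx y χ x).subtype).lTensor K t =
      J.mkQ.lTensor K (bi K (Nx y χ x) t) := by
    rw [LinearMap.lTensor_comp]
    rfl
  rw [g1, f1, g2, f3]
  exact Iff.rfl

end basics

theorem bls : BlsStmt := by
  intro R K A X S _ _ _ _ _ _ _ _ _ _ _ _ y l χ χK L hχ
  have htf : Module.IsTorsionFree R K := inferInstance
  have hfl : Module.Flat R K := inferInstance
  choose p' hp' using fun x => ex_p (K := K) hχ x (L.p x)
  have hsur : ∀ x (a : Nx ((1 : K) ⊗ₜ[R] y) χK x), ∃ t,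
      a = ⟨bi K (Nx y χ x) t, bi_mem hχ t⟩ := by
    intro x a
    obtain ⟨t, ht⟩ := (nx_bi hχ a.1).mp a.2
    exact ⟨t, Subtype.ext ht.symm⟩
  refine ⟨{
    c := fun x => (L.c x).baseChange K
    cs := ?_
    ci := ?_
    co := ?_
    c1 := ?_
    cm := ?_
    p := p'
    pc := ?_
    ps := ?_
    ker := ?_
    one := ?_
    mul := ?_ }, fun x k s => rfl⟩
  · intro s
    induction s using TensorProduct.induction_on with
    | zero => exact Finset.sum_eq_zero fun x _ => map_zero _
    | tmul k s =>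
      conv_rhs => rw [← L.cs s]
      rw [TensorProduct.tmul_sum]
      rfl
    | add a b ha hb =>
      conv_rhs => rw [← ha, ← hb]
      rw [← Finset.sum_add_distrib]
      exact Finset.sum_congr rfl fun x _ => map_add _ _ _
  · intro x s
    induction s using TensorProduct.induction_on with
    | zero => rw [map_zero, map_zero]
    | tmul k s => rw [LinearMap.baseChange_tmul, LinearMap.baseChange_tmul, L.ci]
    | add a b ha hb => rw [map_add, map_add, ha, hb]
  · intro x x' s hxx
    induction s using TensorProduct.induction_on with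
    | zero => rw [map_zero, map_zero]
    | tmul k s =>
      rw [LinearMap.baseChange_tmul, LinearMap.baseChange_tmul, L.co x x' s hxx,
        TensorProduct.tmul_zero]
    | add a b ha hb => rw [map_add, map_add, ha, hb, add_zero]
  · rw [Algebra.TensorProduct.one_def, LinearMap.baseChange_tmul, L.c1]
  · intro x x' s s'
    induction s using TensorProduct.induction_on with
    | zero => rw [map_zero, zero_mul, map_zero]
    | tmul k s =>
      induction s' using TensorProduct.induction_on with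
      | zero => rw [map_zero, mul_zero, map_zero]
      | tmul k' s' =>
        rw [LinearMap.baseChange_tmul, LinearMap.baseChange_tmul,
          Algebra.TensorProduct.tmul_mul_tmul, LinearMap.baseChange_tmul, L.cm]
      | add a b ha hb => rw [map_add, mul_add, map_add, ha, hb]
    | add a b ha hb => rw [map_add, add_mul, map_add, ha, hb]
  · intro x a
    obtain ⟨t, rfl⟩ := hsur x a
    rw [hp']
    induction t using TensorProduct.induction_on with
    | zero => rw [map_zero, map_zero]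
    | tmul k n => rw [LinearMap.baseChange_tmul, LinearMap.baseChange_tmul, L.pc]
    | add a b ha hb => rw [map_add, map_add, ha, hb]
  · intro x s
    have h : ∃ t, (L.p x).baseChange K t = (L.c x).baseChange K s := by
      induction s using TensorProduct.induction_on with
      | zero => exact ⟨0, by rw [map_zero, map_zero]⟩
      | tmul k s =>
        obtain ⟨a, ha⟩ := L.ps x s
        exact ⟨k ⊗ₜ[R] a, by rw [LinearMap.baseChange_tmul, LinearMap.baseChange_tmul, ha]⟩
      | add a b ha hb =>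
        obtain ⟨t, ht⟩ := ha
        obtain ⟨t', ht'⟩ := hb
        exact ⟨t + t', by rw [map_add, map_add, ht, ht']⟩
    obtain ⟨t, ht⟩ := h
    exact ⟨_, (hp' x t).trans ht⟩
  · intro x a
    obtain ⟨t, rfl⟩ := hsur x a
    rw [hp']
    exact ker_bc hχ x (L.p x) (L.ker x) t
  · have h := hp' 1 ((1 : K) ⊗ₜ[R] ⟨1, Nx_one y χ⟩)
    rw [LinearMap.baseChange_tmul, L.one] at h
    exact h
  · intro x x' a b
    obtain ⟨t, rfl⟩ := hsur x a
    obtain ⟨t', rfl⟩ := hsur x' b
    have h : ∃ u, bi K (Nx y χ (x * x')) u = bi K (Nx y χ x) t * bi K (Nx y χ x') t' ∧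
        (L.p (x * x')).baseChange K u = (L.p x).baseChange K t * (L.p x').baseChange K t' := by
      induction t using TensorProduct.induction_on with
      | zero => exact ⟨0, by rw [map_zero, map_zero, zero_mul], by
          rw [map_zero, map_zero, zero_mul]⟩
      | tmul k n =>
        induction t' using TensorProduct.induction_on with
        | zero => exact ⟨0, by rw [map_zero, map_zero, mul_zero], by
            rw [map_zero, map_zero, mul_zero]⟩
        | tmul k' n' =>
          refine ⟨(k * k') ⊗ₜ[R] ⟨n * n', Nx_mul n.2 n'.2⟩, ?_, ?_⟩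
          · rw [bi_tmul, bi_tmul, bi_tmul, Algebra.TensorProduct.tmul_mul_tmul]
          · rw [LinearMap.baseChange_tmul, LinearMap.baseChange_tmul, LinearMap.baseChange_tmul,
              Algebra.TensorProduct.tmul_mul_tmul, L.mul]
        | add a b ha hb =>
          obtain ⟨u, hu, hu'⟩ := ha
          obtain ⟨v, hv, hv'⟩ := hb
          exact ⟨u + v, by rw [map_add, map_add, mul_add, hu, hv], by
            rw [map_add, map_add, mul_add, hu', hv']⟩
      | add a b ha hb =>
        obtain ⟨u, hu, hu'⟩ := ha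
        obtain ⟨v, hv, hv'⟩ := hb
        exact ⟨u + v, by rw [map_add, map_add, add_mul, hu, hv], by
          rw [map_add, map_add, add_mul, hu', hv']⟩
    obtain ⟨u, hu, hu'⟩ := h
    rw [hp', hp', ← hu', ← hp']
    exact congrArg _ (Subtype.ext hu)

end Pool.Agent.PFE.H92
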