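import Pool.Agent.PFE.StmtsE2

/-!
# Squad PFE, row SPY: a framed complement is a retract of the bimodule with the same basis
-/

set_option autoImplicit false

open scoped BigOperators

noncomputable section

namespace Pool.Agent.PFE.H92

open MulOpposite
open Pool.Agent.PFC.B1 (FS Split BiM Sep)
open Pool.Agent.PFD (RF)
open Pool.Agent.PFD.D2
open Pool.Agent.PFD.D2b (wrp FPl FrR WFS)

theorem spy (hoy : HoyStmt) : SpyStmt := by
  intro R Γ W A M X Ω Ω' _ _ _ _ _ _ _ _ _ _ _ _ _ _ l G χ j pr F BX FX hl hpj hpl hpr hdeg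
  obtain ⟨i, hi, hi2⟩ := hoy R Γ W A M X Ω Ω' l G χ (AB j) BX
    (LinearMap.id - j.toLinearMap ∘ₗ pr) F FX.g FX.h hl FX.gw
    (fun o => by rw [hdeg]; exact FX.gy o) FX.hw
  obtain ⟨p, hp, hp2⟩ := hoy R Γ W M A X Ω Ω' l G χ BX (AB j) LinearMap.id FX.toYFr F.g F.h hl
    F.gw (fun o => by rw [← hdeg]; exact F.gy o) F.hw
  have hel : ∀ a, i a = FX.toYFr.el (fun o i => F.c o ((AB j).lm (G.y ^ (l - 1 - i)) a))
      (fun o i k => F.d o ((AB j).lm (G.y ^ (l - 1 - i))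
        ((AB j).rm (op (G.y ^ (l - 1 - k))) a))) := hi2
  refine ⟨⟨j, pr, hpj, hpl, hpr, i, fun γ x => hi.1 γ x, fun γ x => hi.2 (op γ) x, p,
    fun γ x => hp.1 γ x, fun γ x => hp.2 (op γ) x, ?_⟩, rfl, rfl⟩
  intro a
  have h1 : ∀ o, ∀ k ∈ Finset.range l, FX.c o (BX.lm (G.y ^ (l - 1 - k)) (i a)) =
      F.c o ((AB j).lm (G.y ^ (l - 1 - k)) a) := by
    intro o k hk
    rw [hel]
    exact FX.un1 _ _ o k (Finset.mem_range.mp hk)
  have h2 : ∀ o, ∀ k ∈ Finset.range l, ∀ k' ∈ Finset.range l,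
      FX.d o (BX.lm (G.y ^ (l - 1 - k)) (BX.rm (op (G.y ^ (l - 1 - k'))) (i a))) =
      F.d o ((AB j).lm (G.y ^ (l - 1 - k)) ((AB j).rm (op (G.y ^ (l - 1 - k'))) a)) := by
    intro o k hk k' hk'
    rw [hel]
    exact FX.un2 _ _ o k k' (Finset.mem_range.mp hk) (Finset.mem_range.mp hk')
  rw [hp2]
  have h3 := F.fr a
  have h4 : (LinearMap.id - j.toLinearMap ∘ₗ pr : A →ₗ[R] A) a = a - j (pr a) := rfl
  rw [← h4, ← h3]
  congr 1
  · refine Finset.sum_congr rfl fun o _ => Finset.sum_congr rfl fun k hk => ?_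
    rw [h1 o k hk]
  · refine Finset.sum_congr rfl fun o _ => Finset.sum_congr rfl fun k hk =>
      Finset.sum_congr rfl fun k' hk' => ?_
    rw [h2 o k hk k' hk']

end Pool.Agent.PFE.H92
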